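import Pool.Agent.E8helper2.PS.Stm

set_option autoImplicit false

/-!
# Project PS, piece MEAN
-/

open MeasureTheory Filter Topology

namespace Pool.Agent.E8helper25.PS

open Pool.Agent.E8helper2.PS

/-- the terms -/
noncomputable def T (c : ℕ → ℂ) (σ : ℤ) (t : ℝ) (j : ℕ) (θ : ℝ) : ℂ :=
  c j * Complex.exp (Complex.I * j * ((σ : ℂ) * (θ : ℂ) + t * Complex.I))

theorem norm_T {c : ℕ → ℂ} {M : ℝ} (hc : ∀ n, ‖c n‖ ≤ M) (σ : ℤ) (t : ℝ) (j : ℕ) (θ : ℝ) :
    ‖T c σ t j θ‖ ≤ M * Real.exp (-t) ^ j := by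
  unfold T
  rw [norm_mul, Complex.norm_exp]
  have h1 : (Complex.I * j * ((σ : ℂ) * (θ : ℂ) + t * Complex.I)).re = (j : ℝ) * (-t) := by
    have e : Complex.I * j * ((σ : ℂ) * (θ : ℂ) + t * Complex.I) =
        (((j : ℝ) * (-t) : ℝ) : ℂ) + (((j : ℝ) * ((σ : ℝ) * θ) : ℝ) : ℂ) * Complex.I := by
      push_cast
      linear_combination ((j : ℂ) * t) * Complex.I_mul_I
    rw [e, Complex.add_re, Complex.ofReal_re, Complex.re_ofReal_mul, Complex.I_re]
    ring
  rw [h1, Real.exp_nat_mul]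
  exact mul_le_mul_of_nonneg_right (hc j) (pow_nonneg (Real.exp_pos _).le _)

theorem cont_T (c : ℕ → ℂ) (σ : ℤ) (t : ℝ) (j : ℕ) : Continuous (T c σ t j) := by
  unfold T
  fun_prop

theorem summ {t : ℝ} (ht : 0 < t) (M : ℝ) : Summable fun j : ℕ => M * Real.exp (-t) ^ j := by
  refine (summable_geometric_of_lt_one (Real.exp_pos _).le ?_).mul_left M
  rw [Real.exp_lt_one_iff]
  linarith

theorem cont_F {c : ℕ → ℂ} {M : ℝ} (hc : ∀ n, ‖c n‖ ≤ M) (σ : ℤ) {t : ℝ} (ht : 0 < t) :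
    Continuous fun θ : ℝ => Phi c ((σ : ℂ) * (θ : ℂ) + t * Complex.I) :=
  continuous_tsum (cont_T c σ t) (summ ht M) fun j θ => norm_T hc σ t j θ

theorem int_T (c : ℕ → ℂ) {σ : ℤ} (hσ : σ ≠ 0) (t x : ℝ) (j : ℕ) :
    ∫ θ in x..(x + 2 * Real.pi), T c σ t j θ = if j = 0 then 2 * Real.pi * c 0 else 0 := by
  split_ifs with hj
  · have : ∀ θ : ℝ, T c σ t j θ = c 0 := by
      intro θ
      unfold T
      rw [hj]
      simp
    simp only [this]
    rw [intervalIntegral.integral_const]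
    simp
  · have hz : Complex.I * j * (σ : ℂ) ≠ 0 :=
      mul_ne_zero (mul_ne_zero Complex.I_ne_zero (Nat.cast_ne_zero.2 hj)) (Int.cast_ne_zero.2 hσ)
    have h1 : ∀ θ : ℝ, T c σ t j θ = (c j * Complex.exp (Complex.I * j * (t * Complex.I))) *
        Complex.exp ((Complex.I * j * (σ : ℂ)) * (θ : ℂ)) := by
      intro θ
      unfold T
      have e0 : Complex.I * j * ((σ : ℂ) * (θ : ℂ) + t * Complex.I) =
          Complex.I * j * (t * Complex.I) + (Complex.I * j * (σ : ℂ)) * (θ : ℂ) := by ring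
      rw [e0, Complex.exp_add, ← mul_assoc]
    simp only [h1]
    rw [intervalIntegral.integral_const_mul, integral_exp_mul_complex hz]
    have h2 : Complex.exp (Complex.I * j * (σ : ℂ) * ((x + 2 * Real.pi : ℝ) : ℂ)) =
        Complex.exp (Complex.I * j * (σ : ℂ) * (x : ℂ)) := by
      have e : Complex.I * j * (σ : ℂ) * ((x + 2 * Real.pi : ℝ) : ℂ) =
          Complex.I * j * (σ : ℂ) * (x : ℂ) +
            (((j : ℤ) * σ : ℤ) : ℂ) * (2 * Real.pi * Complex.I) := by
        push_cast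
        ring
      rw [e, Complex.exp_add, Complex.exp_int_mul_two_pi_mul_I, mul_one]
    rw [h2, sub_self, zero_div, mul_zero]

theorem int_F {c : ℕ → ℂ} {M : ℝ} (hc : ∀ n, ‖c n‖ ≤ M) {σ : ℤ} (hσ : σ ≠ 0) {t : ℝ} (ht : 0 < t)
    (x : ℝ) :
    ∫ θ in x..(x + 2 * Real.pi), Phi c ((σ : ℂ) * (θ : ℂ) + t * Complex.I) =
      2 * Real.pi * c 0 := by
  have h1 : HasSum (fun j : ℕ => ∫ θ in x..(x + 2 * Real.pi), T c σ t j θ)
      (∫ θ in x..(x + 2 * Real.pi), Phi c ((σ : ℂ) * (θ : ℂ) + t * Complex.I)) := by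
    refine intervalIntegral.hasSum_integral_of_dominated_convergence
      (fun (j : ℕ) (_ : ℝ) => M * Real.exp (-t) ^ j) ?_ ?_ ?_ ?_ ?_
    · intro j
      exact (cont_T c σ t j).aestronglyMeasurable
    · intro j
      exact Filter.Eventually.of_forall fun θ _ => norm_T hc σ t j θ
    · exact Filter.Eventually.of_forall fun θ _ => summ ht M
    · exact intervalIntegrable_const
    · refine Filter.Eventually.of_forall fun θ _ => ?_
      have h2 : Summable fun j => T c σ t j θ :=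
        Summable.of_norm_bounded (summ ht M) fun j => norm_T hc σ t j θ
      exact h2.hasSum
  have h2 : HasSum (fun j : ℕ => ∫ θ in x..(x + 2 * Real.pi), T c σ t j θ)
      (2 * Real.pi * c 0) := by
    have h3 : (fun j : ℕ => ∫ θ in x..(x + 2 * Real.pi), T c σ t j θ) =
        fun j : ℕ => if j = 0 then 2 * Real.pi * c 0 else 0 := by
      funext j
      exact int_T c hσ t x j
    rw [h3]
    exact hasSum_ite_eq 0 _
  exact h1.unique h2

/-- MEAN -/
theorem t_MEAN : S_MEAN := by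
  intro a M ha N t x ht
  have hM : 0 ≤ M := (norm_nonneg _).trans (ha 0)
  have h1 : ∀ n, ‖sh a N n‖ ≤ M := fun n => ha _
  have h2 : ∀ n, ‖rv a N n‖ ≤ M := by
    intro n
    unfold rv
    split_ifs
    · exact ha _
    · rw [norm_zero]
      exact hM
  have e : ∀ θ : ℝ, Dl a N t θ = Phi (sh a N) (((1 : ℤ) : ℂ) * (θ : ℂ) + t * Complex.I) +
      Phi (rv a N) (((-1 : ℤ) : ℂ) * (θ : ℂ) + t * Complex.I) := by
    intro θ
    unfold Dl
    congr 2
    · push_cast
      ring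
    · push_cast
      ring
  simp only [e]
  rw [intervalIntegral.integral_add ((cont_F h1 1 ht).intervalIntegrable _ _)
    ((cont_F h2 (-1) ht).intervalIntegrable _ _), int_F h1 one_ne_zero ht,
    int_F h2 (by norm_num) ht]
  have h3 : rv a N 0 = 0 := by
    unfold rv
    rw [if_neg (by omega)]
  have h4 : sh a N 0 = a N := rfl
  rw [h3, h4, mul_zero, add_zero]

end Pool.Agent.E8helper25.PS
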